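import Pool.Agent.Helper15.AF.Goals2
import Pool.Agent.Helper89.JT.RNJ

/-!
# AF, packet RNM: tests for a fixed second string are tests in the first string
-/

namespace Pool.Agent.Helper16.AF

open scoped Classical
open Pool.Agent.Helper51.ZP Pool.Agent.Helper78.DT Pool.Agent.Helper78.JT Pool.Agent.Helper15.AF
open Pool.Agent.Helper81.DT (ev_ren bad_ren ren_length)
open Pool.Agent.Helper61.DT (trf)

/-- The sign change of a term. -/
noncomputable def fl {n : ℕ} (s : Fin n → Bool) (T : Tm (Fin n)) : Tm (Fin n) :=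
  T.image fun p => (p.1, xor p.2 (s p.1))

theorem mem_fl {n : ℕ} (s : Fin n → Bool) (T : Tm (Fin n)) (q : Fin n × Bool) :
    q ∈ fl s T ↔ ∃ p ∈ T, (p.1, xor p.2 (s p.1)) = q := Finset.mem_image

theorem fl_fl {n : ℕ} (s : Fin n → Bool) (T : Tm (Fin n)) : fl s (fl s T) = T := by
  have key : ∀ p : Fin n × Bool, (p.1, xor (xor p.2 (s p.1)) (s p.1)) = p := fun p => by
    rw [Bool.xor_assoc, Bool.xor_self, Bool.xor_false]
  ext q
  rw [mem_fl]
  constructor
  · rintro ⟨p, hp, rfl⟩
    obtain ⟨p', hp', rfl⟩ := (mem_fl _ _ _).1 hp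
    change (p'.1, xor (xor p'.2 (s p'.1)) (s p'.1)) ∈ T
    rw [key]
    exact hp'
  · intro hq
    exact ⟨(q.1, xor q.2 (s q.1)), (mem_fl _ _ _).2 ⟨q, hq, rfl⟩, key q⟩

theorem card_fl {n : ℕ} (s : Fin n → Bool) (T : Tm (Fin n)) : (fl s T).card ≤ T.card :=
  Finset.card_image_le

theorem sat_fl {n : ℕ} (s : Fin n → Bool) (T : Tm (Fin n)) (y : Fin n → Bool) :
    Sat (fl s T) y ↔ Sat T (fun v => xor (y v) (s v)) := by
  have key : ∀ a b c : Bool, a = xor b c ↔ xor a c = b := by decide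
  unfold Sat
  constructor
  · intro h p hp
    have h1 := h (p.1, xor p.2 (s p.1)) ((mem_fl _ _ _).2 ⟨p, hp, rfl⟩)
    exact (key _ _ _).1 h1
  · intro h q hq
    obtain ⟨p, hp, rfl⟩ := (mem_fl _ _ _).1 hq
    exact (key _ _ _).2 (h p hp)

section

variable {n : ℕ}

theorem flp_eq (s : Fin n → Bool) (f : DL (Fin n)) : flp s f = f.map fun e => (fl s e.1, e.2) := rfl

theorem flp_flp (s : Fin n → Bool) (f : DL (Fin n)) : flp s (flp s f) = f := by
  rw [flp_eq, flp_eq, List.map_map]
  conv_rhs => rw [← List.map_id f]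
  refine List.map_congr_left fun e _ => ?_
  change (fl s (fl s e.1), e.2) = e
  rw [fl_fl]

theorem flp_take (s : Fin n → Bool) (f : DL (Fin n)) (l : ℕ) :
    (flp s f).take l = flp s (f.take l) := by
  rw [flp_eq, flp_eq, List.map_take]

theorem flp_length (s : Fin n → Bool) (f : DL (Fin n)) : (flp s f).length = f.length := by
  rw [flp_eq, List.length_map]

theorem nosat_flp (s : Fin n → Bool) (f : DL (Fin n)) (y : Fin n → Bool) :
    NoSat (flp s f) y ↔ NoSat f (fun v => xor (y v) (s v)) := by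
  rw [flp_eq]
  unfold NoSat
  constructor
  · intro h e he h1
    exact h (fl s e.1, e.2) (List.mem_map.2 ⟨e, he, rfl⟩) ((sat_fl s e.1 y).2 h1)
  · intro h e he h1
    obtain ⟨e', he', rfl⟩ := List.mem_map.1 he
    exact h e' he' ((sat_fl s e'.1 y).1 h1)

theorem ev_flp (s : Fin n → Bool) (f : DL (Fin n)) (y : Fin n → Bool) :
    ev (flp s f) y = ev f (fun v => xor (y v) (s v)) := by
  induction f with
  | nil => rfl
  | cons e g ih =>
    have h1 : flp s (e :: g) = (fl s e.1, e.2) :: flp s g := rfl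
    rw [h1]
    show (if Sat (fl s e.1) y then e.2 else ev (flp s g) y) =
      if Sat e.1 (fun v => xor (y v) (s v)) then e.2 else ev g (fun v => xor (y v) (s v))
    rw [ih]
    by_cases h : Sat e.1 (fun v => xor (y v) (s v))
    · rw [if_pos h, if_pos ((sat_fl s e.1 y).2 h)]
    · rw [if_neg h, if_neg (fun h' => h ((sat_fl s e.1 y).1 h'))]

theorem vars_flp (s : Fin n → Bool) (f : DL (Fin n)) : vars (flp s f) = vars f := by
  rw [flp_eq]
  ext v
  constructor
  · rintro ⟨e', he', q, hq, rfl⟩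
    obtain ⟨e, he, rfl⟩ := List.mem_map.1 he'
    obtain ⟨p, hp, rfl⟩ := (mem_fl _ _ _).1 hq
    exact ⟨e, he, p, hp, rfl⟩
  · rintro ⟨e, he, p, hp, rfl⟩
    exact ⟨(fl s e.1, e.2), List.mem_map.2 ⟨e, he, rfl⟩, (p.1, xor p.2 (s p.1)),
      (mem_fl _ _ _).2 ⟨p, hp, rfl⟩, rfl⟩

/-- The sign change of the coin strings. -/
def sx (s : Fin n → Bool) (y : Fin n → Bool) : Fin n → Bool := fun v => xor (y v) (s v)

theorem sx_sx (s : Fin n → Bool) (y : Fin n → Bool) : sx s (sx s y) = y := by
  funext v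
  unfold sx
  rw [Bool.xor_assoc, Bool.xor_self, Bool.xor_false]

theorem pr_sx (s : Fin n → Bool) (E : (Fin n → Bool) → Prop) :
    pr (fun y => E (sx s y)) = pr E := by
  unfold pr av
  congr 1
  exact Equiv.sum_comp (Function.Involutive.toPerm (sx s) (sx_sx s)) fun w => if E w then (1 : ℝ)
    else 0

theorem bad_flp' {t : ℕ} {k : ℝ} (s : Fin n → Bool) (f : DL (Fin n)) (y : Fin n → Bool)
    (h : Bad t k (flp s f) y) : Bad t k f (sx s y) := by
  obtain ⟨l, hl, hN, T, hT, hc, hs, hp⟩ := h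
  rw [flp_length] at hl
  rw [flp_take, nosat_flp] at hN
  refine ⟨l, hl, hN, fl s T, ?_, (card_fl s T).trans hc, ?_, ?_⟩
  · intro q hq
    obtain ⟨p, hp', rfl⟩ := (mem_fl _ _ _).1 hq
    have h1 := hT p hp'
    rw [vars_flp] at h1
    exact h1
  · rw [sat_fl]
    change Sat T (sx s (sx s y))
    rw [sx_sx]
    exact hs
  · refine le_trans (le_of_eq ?_) hp
    rw [← pr_sx s fun z => Sat T z ∧ NoSat (List.take l (flp s f)) z]
    congr 1
    funext z
    apply propext
    rw [sat_fl, flp_take, nosat_flp]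
    change (Sat T (sx s z) ∧ NoSat (List.take l f) z) ↔
      (Sat T (sx s z) ∧ NoSat (List.take l f) (sx s (sx s z)))
    rw [sx_sx]

theorem bad_flp {t : ℕ} {k : ℝ} (s : Fin n → Bool) (f : DL (Fin n)) (y : Fin n → Bool) :
    Bad t k (flp s f) y ↔ Bad t k f (sx s y) := by
  refine ⟨bad_flp' s f y, fun h => ?_⟩
  have h1 := bad_flp' (t := t) (k := k) s (flp s f) (sx s y) (by rw [flp_flp]; exact h)
  rw [sx_sx] at h1
  exact h1

end

theorem b2z_xor (a b : Bool) : b2z (xor a b) = b2z a + b2z b := by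
  revert a b; decide

theorem dot_sx {P e w n : ℕ} (hP : 0 < P) (b : Fin n → ZMod 2) (s : Fin n → Bool)
    (z : Fin P → Bool) :
    dot b (fun v => xor (z (hF P e w hP v)) (s v)) = dot (hv P e w b) z + dot b s := by
  unfold dot hv
  simp only [b2z_xor, mul_add, Finset.sum_add_distrib]
  congr 1
  simp only [Finset.sum_mul]
  rw [Finset.sum_comm]
  refine Finset.sum_congr rfl fun v _ => ?_
  rw [Finset.sum_eq_single (hF P e w hP v)]
  · have h : hs P e w v = ((hF P e w hP v : Fin P) : ℕ) := rfl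
    rw [if_pos h]
  · intro u _ hu
    rw [if_neg, zero_mul]
    intro h
    apply hu
    exact Fin.ext h.symm
  · intro h
    exact absurd (Finset.mem_univ _) h

/-- **Packet RNM.** -/
theorem rnm : RnmStmt := by
  intro P e w n r ρ t s' k F g a c hP s hinj
  refine ⟨fun z => ?_, fun hw j => ⟨?_, ?_⟩⟩
  · have hev : (fun j => ev (g j) fun v => xor (z (hF P e w hP v)) (s v)) =
        fun j => ev (ren (hF P e w hP) (flp s (g j))) z := by
      funext j
      rw [ev_ren, ev_flp]
    have hbad : BadJ t k g (fun v => xor (z (hF P e w hP v)) (s v)) ↔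
        BadJ t k (fun j => ren (hF P e w hP) (flp s (g j))) z := by
      unfold BadJ
      refine exists_congr fun j => ?_
      rw [bad_ren trf (hF P e w hP) (flp s (g j)) t k, bad_flp]
      · rfl
      · rw [vars_flp]
        intro x hx y hy hxy
        exact hinj ⟨j, hx⟩ ⟨j, hy⟩ (congrArg Fin.val hxy)
    have hdot : (fun i => dot (a i) (fun v => xor (z (hF P e w hP v)) (s v)) + c i) =
        fun i => dot (hv P e w (a i)) z + (c i + dot (a i) s) := by
      funext i
      rw [dot_sx hP]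
      ring
    unfold ts
    rw [hev, hdot, decide_eq_decide.2 hbad]
  · intro e' he'
    obtain ⟨e1, he1, rfl⟩ := List.mem_map.1 he'
    obtain ⟨e2, he2, rfl⟩ := List.mem_map.1 he1
    exact (Pool.Agent.Helper81.DT.card_imt (hF P e w hP) (fl s e2.1)).trans
      ((card_fl s e2.1).trans ((hw j).1 e2 he2))
  · rw [ren_length, flp_length]
    exact (hw j).2

end Pool.Agent.Helper16.AF
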