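import Mathlib
import Pool.Agent.Helper26.AF.Goals2

/-!
Project AF, packet CORI (2-core decomposition, lower bound).
-/

namespace Pool.Agent.Helper16.AF

open Finset Pool.Agent.Helper26.AF

variable {k : ℕ}

/-- The depth of a vertex in the forest. -/
noncomputable def dep {S : Finset (Fin k)} {f : Fin k → Fin k} (h : IsFor S f) (x : Fin k) : ℕ :=
  Nat.find (h.2 x)

lemma dep_lt {S : Finset (Fin k)} {f : Fin k → Fin k} (h : IsFor S f) {x : Fin k} (hx : x ∉ S) :
    dep h (f x) < dep h x := by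
  have h1 := Nat.find_spec (h.2 x)
  unfold dep
  obtain ⟨j, hj⟩ : ∃ j, Nat.find (h.2 x) = j + 1 := by
    refine Nat.exists_eq_succ_of_ne_zero ?_
    intro h0
    rw [h0] at h1
    exact hx h1
  rw [hj] at h1 ⊢
  rw [Function.iterate_succ_apply] at h1
  exact Nat.lt_succ_of_le (Nat.find_min' (h.2 (f x)) h1)

lemma f_ne {S : Finset (Fin k)} {f : Fin k → Fin k} (h : IsFor S f) {x : Fin k} (hx : x ∉ S) :
    f x ≠ x := by
  intro h0
  have := dep_lt h hx
  rw [h0] at this
  exact lt_irrefl _ this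

lemma ff_ne {S : Finset (Fin k)} {f : Fin k → Fin k} (h : IsFor S f) {x : Fin k} (hx : x ∉ S) :
    f (f x) ≠ x := by
  intro h0
  by_cases hy : f x ∈ S
  · exact f_ne h hx ((h.1 _ hy).symm.trans h0)
  · have h1 := dep_lt h hx
    have h2 := dep_lt h hy
    rw [h0] at h2
    omega

/-- The graph with core `Γ` on `S` and the forest `f` attached. -/
def gr (S : Finset (Fin k)) (Γ : SimpleGraph (Fin #S)) (f : Fin k → Fin k) : SimpleGraph (Fin k) :=
  Γ.map (S.orderEmbOfFin rfl).toEmbedding ⊔ SimpleGraph.fromRel (fun x y => x ∉ S ∧ f x = y)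

lemma map_mem {S : Finset (Fin k)} {Γ : SimpleGraph (Fin #S)} {x y : Fin k}
    (h : (Γ.map (S.orderEmbOfFin rfl).toEmbedding).Adj x y) : x ∈ S ∧ y ∈ S := by
  rw [SimpleGraph.map_adj] at h
  obtain ⟨a, b, _, rfl, rfl⟩ := h
  exact ⟨S.orderEmbOfFin_mem rfl a, S.orderEmbOfFin_mem rfl b⟩

lemma gr_adj {S : Finset (Fin k)} {Γ : SimpleGraph (Fin #S)} {f : Fin k → Fin k} (h : IsFor S f)
    {x y : Fin k} : (gr S Γ f).Adj x y ↔
      (Γ.map (S.orderEmbOfFin rfl).toEmbedding).Adj x y ∨ (x ∉ S ∧ f x = y) ∨ (y ∉ S ∧ f y = x) := by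
  unfold gr
  rw [SimpleGraph.sup_adj, SimpleGraph.fromRel_adj]
  constructor
  · rintro (h1 | ⟨_, h1⟩)
    · exact Or.inl h1
    · exact Or.inr h1
  · rintro (h1 | h1)
    · exact Or.inl h1
    · refine Or.inr ⟨?_, h1⟩
      rcases h1 with ⟨h2, h3⟩ | ⟨h2, h3⟩
      · rw [← h3]; exact (f_ne h h2).symm
      · rw [← h3]; exact f_ne h h2

lemma gr_adj_out {S : Finset (Fin k)} {Γ : SimpleGraph (Fin #S)} {f : Fin k → Fin k} (h : IsFor S f)
    {x y : Fin k} (hx : x ∉ S) : (gr S Γ f).Adj x y ↔ f x = y ∨ (y ∉ S ∧ f y = x) := by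
  rw [gr_adj h]
  constructor
  · rintro (h1 | ⟨_, h1⟩ | h1)
    · exact absurd (map_mem h1).1 hx
    · exact Or.inl h1
    · exact Or.inr h1
  · rintro (h1 | h1)
    · exact Or.inr (Or.inl ⟨hx, h1⟩)
    · exact Or.inr (Or.inr h1)

lemma gr_comap {S : Finset (Fin k)} {Γ : SimpleGraph (Fin #S)} {f : Fin k → Fin k} (h : IsFor S f) :
    (gr S Γ f).comap (S.orderEmbOfFin rfl) = Γ := by
  ext a b
  rw [SimpleGraph.comap_adj, gr_adj h]
  have ha := S.orderEmbOfFin_mem rfl a
  have hb := S.orderEmbOfFin_mem rfl b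
  constructor
  · rintro (h1 | h1 | h1)
    · exact (SimpleGraph.map_adj_apply (f := (S.orderEmbOfFin rfl).toEmbedding)).1 h1
    · exact absurd ha h1.1
    · exact absurd hb h1.1
  · intro h1
    exact Or.inl ((SimpleGraph.map_adj_apply (f := (S.orderEmbOfFin rfl).toEmbedding)).2 h1)

lemma gr_reach {S : Finset (Fin k)} {Γ : SimpleGraph (Fin #S)} {f : Fin k → Fin k} (h : IsFor S f) :
    ∀ n : ℕ, ∀ x : Fin k, dep h x ≤ n → ∃ y ∈ S, (gr S Γ f).Reachable x y := by
  intro n
  induction n with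
  | zero =>
    intro x hx
    have h1 := Nat.find_spec (h.2 x)
    have h2 : Nat.find (h.2 x) = 0 := Nat.le_zero.1 hx
    rw [h2] at h1
    exact ⟨x, h1, SimpleGraph.Reachable.refl _⟩
  | succ n ih =>
    intro x hx
    by_cases hS : x ∈ S
    · exact ⟨x, hS, SimpleGraph.Reachable.refl _⟩
    · have h1 := dep_lt h hS
      obtain ⟨y, hy, hr⟩ := ih (f x) (by omega)
      refine ⟨y, hy, SimpleGraph.Reachable.trans (SimpleGraph.Adj.reachable ?_) hr⟩
      exact (gr_adj_out h hS).2 (Or.inl rfl)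

lemma gr_connected {S : Finset (Fin k)} {Γ : SimpleGraph (Fin #S)} {f : Fin k → Fin k}
    (h : IsFor S f) (hΓ : Γ.Connected) : (gr S Γ f).Connected := by
  have hS : ∀ x ∈ S, ∀ y ∈ S, (gr S Γ f).Reachable x y := by
    intro x hx y hy
    have hx' : x ∈ Set.range (S.orderEmbOfFin rfl) := by
      rw [Finset.range_orderEmbOfFin]; exact hx
    have hy' : y ∈ Set.range (S.orderEmbOfFin rfl) := by
      rw [Finset.range_orderEmbOfFin]; exact hy
    obtain ⟨a, rfl⟩ := hx'
    obtain ⟨b, rfl⟩ := hy'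
    have h1 := hΓ.preconnected a b
    let φ : Γ →g gr S Γ f :=
      { toFun := S.orderEmbOfFin rfl
        map_rel' := by
          intro u v huv
          rw [gr_adj h]
          exact Or.inl ((SimpleGraph.map_adj_apply (f := (S.orderEmbOfFin rfl).toEmbedding)).2 huv) }
    exact h1.map φ
  have : Nonempty (Fin #S) := hΓ.nonempty
  have hne : Nonempty (Fin k) := this.map (S.orderEmbOfFin rfl)
  refine ⟨?_⟩
  intro x y
  obtain ⟨x', hx', hx⟩ := gr_reach (Γ := Γ) h _ x le_rfl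
  obtain ⟨y', hy', hy⟩ := gr_reach (Γ := Γ) h _ y le_rfl
  exact hx.trans ((hS x' hx' y' hy').trans hy.symm)

lemma gr_ne {S : Finset (Fin k)} {Γ : SimpleGraph (Fin #S)} {f : Fin k → Fin k}
    (h : IsFor S f) : ne (gr S Γ f) = ne Γ + (k - #S) := by
  have h1 : (gr S Γ f).edgeSet = (S.orderEmbOfFin rfl).toEmbedding.sym2Map '' Γ.edgeSet ∪
      (fun x => s(x, f x)) '' {x | x ∉ S} := by
    unfold gr
    rw [SimpleGraph.edgeSet_sup, SimpleGraph.edgeSet_map]
    congr 1
    ext e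
    induction e using Sym2.ind with
    | _ x y =>
      rw [SimpleGraph.mem_edgeSet, SimpleGraph.fromRel_adj]
      simp only [Set.mem_image, Set.mem_ofPred_eq]
      constructor
      · rintro ⟨_, ⟨h2, h3⟩ | ⟨h2, h3⟩⟩
        · exact ⟨x, h2, by rw [h3]⟩
        · exact ⟨y, h2, by rw [h3, Sym2.eq_swap]⟩
      · rintro ⟨z, hz, h2⟩
        rw [Sym2.eq_iff] at h2
        have h3 := f_ne h hz
        rcases h2 with ⟨rfl, rfl⟩ | ⟨rfl, rfl⟩
        · exact ⟨h3.symm, Or.inl ⟨hz, rfl⟩⟩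
        · exact ⟨h3, Or.inr ⟨hz, rfl⟩⟩
  unfold ne
  rw [h1]
  change Set.ncard _ = Set.ncard _ + _
  rw [Set.ncard_union_eq]
  · rw [Set.ncard_image_of_injective _ (S.orderEmbOfFin rfl).toEmbedding.sym2Map.injective,
      Set.InjOn.ncard_image]
    · congr 1
      have : {x : Fin k | x ∉ S} = ((Sᶜ : Finset (Fin k)) : Set (Fin k)) := by
        ext x; simp
      rw [this, Set.ncard_coe_finset, Finset.card_compl, Fintype.card_fin]
    · intro x hx y hy hxy
      simp only [Set.mem_ofPred_eq] at hx hy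
      simp only [Sym2.eq_iff] at hxy
      rcases hxy with ⟨h2, _⟩ | ⟨h2, h3⟩
      · exact h2
      · exfalso
        have := ff_ne h hx
        apply this
        rw [h3, ← h2]
  · rw [Set.disjoint_left]
    intro e he he'
    obtain ⟨e', he1, he2⟩ := he
    obtain ⟨x, hx, he3⟩ := he'
    induction e' using Sym2.ind with
    | _ a b =>
      rw [← he3] at he2
      have h4 : x ∈ (S.orderEmbOfFin rfl).toEmbedding.sym2Map s(a, b) := by
        rw [he2]; simp
      have h5 : (S.orderEmbOfFin rfl).toEmbedding.sym2Map s(a, b) =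
        s(S.orderEmbOfFin rfl a, S.orderEmbOfFin rfl b) := rfl
      rw [h5, Sym2.mem_iff] at h4
      apply hx
      rcases h4 with h4 | h4
      · rw [h4]; exact S.orderEmbOfFin_mem rfl a
      · rw [h4]; exact S.orderEmbOfFin_mem rfl b

lemma sub_of_eq {S S' : Finset (Fin k)} {Γ : SimpleGraph (Fin #S)} {Γ' : SimpleGraph (Fin #S')}
    {f f' : Fin k → Fin k} (h : IsFor S f) (h' : IsFor S' f') (hd : ∀ v, 2 ≤ dg Γ' v)
    (he : gr S Γ f = gr S' Γ' f') : S' ⊆ S := by
  by_contra hn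
  have hne : (S' \ S).Nonempty := by
    rw [Finset.sdiff_nonempty]; exact hn
  obtain ⟨x, hx, hmax⟩ := Finset.exists_max_image (S' \ S) (dep h) hne
  rw [mem_sdiff] at hx
  obtain ⟨hx', hxS⟩ := hx
  have hxr : x ∈ Set.range (S'.orderEmbOfFin rfl) := by
    rw [Finset.range_orderEmbOfFin]; exact hx'
  obtain ⟨a, rfl⟩ := hxr
  have h2 := hd a
  have h3 : ∃ b, Γ'.Adj a b ∧ S'.orderEmbOfFin rfl b ≠ f (S'.orderEmbOfFin rfl a) := by
    by_contra hcon
    push Not at hcon
    have h4 : Nat.card (Γ'.neighborSet a) ≤ 1 := by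
      rw [Finite.card_le_one_iff_subsingleton]
      refine ⟨?_⟩
      rintro ⟨b, hb⟩ ⟨c, hc⟩
      rw [SimpleGraph.mem_neighborSet] at hb hc
      have := (hcon b hb).trans (hcon c hc).symm
      exact Subtype.ext ((S'.orderEmbOfFin rfl).injective this)
    unfold dg at h2
    omega
  obtain ⟨b, hab, hbf⟩ := h3
  have h5 : (gr S Γ f).Adj (S'.orderEmbOfFin rfl a) (S'.orderEmbOfFin rfl b) := by
    rw [he, gr_adj h']
    exact Or.inl ((SimpleGraph.map_adj_apply (f := (S'.orderEmbOfFin rfl).toEmbedding)).2 hab)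
  rw [gr_adj_out h hxS] at h5
  rcases h5 with h5 | ⟨h5, h6⟩
  · exact hbf h5.symm
  · have h7 := hmax (S'.orderEmbOfFin rfl b) (mem_sdiff.2 ⟨S'.orderEmbOfFin_mem rfl b, h5⟩)
    have h8 := dep_lt h h5
    rw [h6] at h8
    omega

lemma f_eq {S : Finset (Fin k)} {Γ Γ' : SimpleGraph (Fin #S)}
    {f f' : Fin k → Fin k} (h : IsFor S f) (h' : IsFor S f')
    (he : gr S Γ f = gr S Γ' f') : ∀ n : ℕ, ∀ x, dep h' x ≤ n → f x = f' x := by
  intro n
  induction n with
  | zero =>
    intro x hx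
    have h1 := Nat.find_spec (h'.2 x)
    have h2 : Nat.find (h'.2 x) = 0 := Nat.le_zero.1 hx
    rw [h2] at h1
    change x ∈ S at h1
    rw [h.1 x h1, h'.1 x h1]
  | succ n ih =>
    intro x hx
    by_cases hS : x ∈ S
    · rw [h.1 x hS, h'.1 x hS]
    · have h1 := dep_lt h' hS
      have h2 := ih (f' x) (by omega)
      have h3 : (gr S Γ f).Adj x (f' x) := by
        rw [he]; exact (gr_adj_out h' hS).2 (Or.inl rfl)
      rw [gr_adj_out h hS] at h3
      rcases h3 with h3 | ⟨_, h4⟩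
      · exact h3
      · exfalso
        rw [h2] at h4
        exact ff_ne h' hS h4

/-- PACKET CORI. -/
theorem goalCORI (hFOR : StmtFOR) : StmtCORI := by
  intro k r T hT
  rcases Nat.eq_zero_or_pos k with rfl | hk
  · simp
  classical
  have hF : ∀ S : Finset (Fin k),
      Nat.card {f : Fin k → Fin k // IsFor S f} * k = #S * k ^ (k - #S) := by
    intro S
    rcases S.eq_empty_or_nonempty with rfl | hS
    · have : IsEmpty {f : Fin k → Fin k // IsFor ∅ f} := by
        refine ⟨?_⟩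
        rintro ⟨f, hf⟩
        obtain ⟨i, hi⟩ := hf.2 ⟨0, hk⟩
        simp at hi
      simp
    · exact hFOR k S hS
  have hcard : Nat.card (Σ S : Finset (Fin k),
      {Γ : SimpleGraph (Fin #S) // T #S Γ} × {f : Fin k → Fin k // IsFor S f}) ≤
      Nat.card {G : SimpleGraph (Fin k) // G.Connected ∧ ne G = k + r ∧
        ∃ S : Finset (Fin k), T #S (G.comap (S.orderEmbOfFin rfl))} := by
    refine Nat.card_le_card_of_injective (fun q => ⟨gr q.1 q.2.1.1 q.2.2.1, ?_, ?_, ?_⟩) ?_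
    · exact gr_connected q.2.2.2 (hT _ _ q.2.1.2).1
    · rw [gr_ne q.2.2.2, (hT _ _ q.2.1.2).2.2]
      have : #q.1 ≤ k := by simpa using Finset.card_le_univ q.1
      omega
    · refine ⟨q.1, ?_⟩
      rw [gr_comap q.2.2.2]
      exact q.2.1.2
    · rintro ⟨S, ⟨Γ, hΓ⟩, ⟨f, hf⟩⟩ ⟨S', ⟨Γ', hΓ'⟩, ⟨f', hf'⟩⟩ hqq
      have he : gr S Γ f = gr S' Γ' f' := congrArg Subtype.val hqq
      have hSS : S = S' := Finset.Subset.antisymm
        (sub_of_eq hf' hf (hT _ _ hΓ).2.1 he.symm) (sub_of_eq hf hf' (hT _ _ hΓ').2.1 he)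
      subst hSS
      have hΓΓ : Γ = Γ' := by
        rw [← gr_comap (Γ := Γ) hf, he, gr_comap hf']
      subst hΓΓ
      have hff : f = f' := funext fun x => f_eq hf hf' he _ x le_rfl
      subst hff
      rfl
  have hsum : Nat.card (Σ S : Finset (Fin k),
      {Γ : SimpleGraph (Fin #S) // T #S Γ} × {f : Fin k → Fin k // IsFor S f}) * k =
      ∑ s ∈ range (k + 1), k.choose s *
        (Nat.card {Γ : SimpleGraph (Fin s) // T s Γ} * (s * k ^ (k - s))) := by
    rw [Nat.card_sigma, Finset.sum_mul]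
    have h1 := Finset.sum_powerset_apply_card (x := (univ : Finset (Fin k)))
      (fun s => Nat.card {Γ : SimpleGraph (Fin s) // T s Γ} * (s * k ^ (k - s)))
    rw [Finset.powerset_univ, Finset.card_univ, Fintype.card_fin] at h1
    simp only [smul_eq_mul] at h1
    rw [← h1]
    refine Finset.sum_congr rfl fun S _ => ?_
    rw [Nat.card_prod, mul_assoc, hF S]
  have hsum2 : ∑ s ∈ Icc 1 k, k.choose s * Nat.card {Γ : SimpleGraph (Fin s) // T s Γ} *
      (s * k ^ (k - s)) = ∑ s ∈ range (k + 1), k.choose s *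
        (Nat.card {Γ : SimpleGraph (Fin s) // T s Γ} * (s * k ^ (k - s))) := by
    have hsub : Icc 1 k ⊆ range (k + 1) := by
      intro s hs
      rw [mem_Icc] at hs
      rw [mem_range]; omega
    rw [← Finset.sum_subset hsub]
    · exact Finset.sum_congr rfl fun s _ => by ring
    · intro s hs hs'
      rw [mem_range] at hs
      rw [mem_Icc] at hs'
      have : s = 0 := by omega
      subst this
      simp
  rw [hsum2, ← hsum]
  exact Nat.mul_le_mul_right k hcard

end Pool.Agent.Helper16.AF
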